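import Pool.Agent.W169.AF.Stm2
import Pool.Agent.W300.AF.HG

set_option autoImplicit false

/-!
# Project AF, part HGw: the Gamma factor, wide range
Adapted from `Pool.Agent.W300.AF.HG`.
-/

namespace Pool.Agent.W18.AF.HGw
open Complex Filter Topology Set
open Pool.Agent.W169.AF (PC LC LF S_HGw)
open Pool.Agent.W300.AF.HG (HH ld HH_ne HH_deriv ld_eq LC_eq)

lemma psi_bound : ∃ C : ℝ, 0 < C ∧ ∀ w : ℂ, 1 / 8 ≤ w.re → w.re ≤ 4 →
    ‖logDeriv Complex.Gamma w‖ ≤ C + Real.log (2 + |w.im|) := by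
  obtain ⟨C0, hC0, h0⟩ := SG.digamma_bound
  have hZ := SG.Dig.Z2_nonneg
  have hg := abs_nonneg Real.eulerMascheroniConstant
  refine ⟨C0 + (|Real.eulerMascheroniConstant| + 8 + 8 * SG.Dig.Z2), by positivity, ?_⟩
  intro w h1 h2
  have him := abs_nonneg w.im
  by_cases hw : 4 ≤ |w.im|
  · have h3 := h0 w (by linarith) (by rw [abs_of_pos (by linarith)]; linarith)
    have h4 : ‖((Real.log |w.im| : ℝ) : ℂ)‖ = Real.log |w.im| := by
      rw [Complex.norm_real, Real.norm_eq_abs, abs_of_nonneg (Real.log_nonneg (by linarith))]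
    have h5 : Real.log |w.im| ≤ Real.log (2 + |w.im|) :=
      Real.log_le_log (by linarith) (by linarith)
    have h6 : ‖logDeriv Complex.Gamma w‖ ≤ ‖logDeriv Complex.Gamma w - ((Real.log |w.im| : ℝ) : ℂ)‖ +
        ‖((Real.log |w.im| : ℝ) : ℂ)‖ := by
      have := norm_add_le (logDeriv Complex.Gamma w - ((Real.log |w.im| : ℝ) : ℂ))
        ((Real.log |w.im| : ℝ) : ℂ)
      rwa [sub_add_cancel] at this
    rw [h4] at h6
    linarith
  · push Not at hw
    have hre : 0 < w.re := by linarith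
    have hn3 : ‖w‖ ≤ 8 := by
      have := Complex.norm_le_abs_re_add_abs_im w
      rw [abs_of_pos hre] at this
      linarith
    have hn0 : 1 / 8 ≤ ‖w‖ := h1.trans (Complex.re_le_norm w)
    rw [Pool.Agent.W45.WP.logDeriv_Gamma_eq hre]
    have hs : ‖∑' n, Pool.Agent.W45.WP.dg n w‖ ≤ ‖w‖ * SG.Dig.Z2 := by
      unfold SG.Dig.Z2
      rw [← tsum_mul_left]
      exact tsum_of_norm_bounded ((H370.DG.summable_inv_sq.mul_left ‖w‖).hasSum)
        fun n => Pool.Agent.W45.WP.norm_dg_le n hre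
    have h3 : ‖(1 : ℂ) / w‖ ≤ 8 := by
      rw [norm_div, norm_one, div_le_iff₀ (by linarith)]
      linarith
    have h4 : ‖(Real.eulerMascheroniConstant : ℂ)‖ = |Real.eulerMascheroniConstant| := by
      rw [Complex.norm_real, Real.norm_eq_abs]
    have h5 := norm_add_le (-(Real.eulerMascheroniConstant : ℂ) - 1 / w)
      (∑' n, Pool.Agent.W45.WP.dg n w)
    have h6 := norm_sub_le (-(Real.eulerMascheroniConstant : ℂ)) (1 / w)
    rw [norm_neg, h4] at h6
    have h7 : 0 ≤ Real.log (2 + |w.im|) := Real.log_nonneg (by linarith)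
    have h8 := mul_le_mul_of_nonneg_right hn3 hZ
    linarith

theorem hgw : S_HGw := by
  intro η hη
  obtain ⟨C, hC, hψ⟩ := psi_bound
  have hpi : 0 < Real.log Real.pi := Real.log_pos (by linarith [Real.pi_gt_three])
  have hl3 : 0 < Real.log 6 := Real.log_pos (by norm_num)
  set K : ℝ := (Real.log Real.pi + C + Real.log 6) / 2 with hK
  have hK0 : 0 < K := by positivity
  refine ⟨min (1 / 30) (η / 2), max 2 (Real.exp (2 * K / η)), by positivity, min_le_left _ _,
    le_max_left _ _, ?_⟩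
  intro Q q hQ0 hq1 hqQ χ _
  set c : ℝ := min (1 / 30) (η / 2) with hc
  have hc0 : 0 < c := by positivity
  have hc1 : c ≤ 1 / 30 := min_le_left _ _
  have hc2 : c ≤ η / 2 := min_le_right _ _
  have hQ2 : (2 : ℝ) ≤ Q := (le_max_left _ _).trans hQ0
  have hQpos : (0 : ℝ) < Q := by linarith
  have hL : 2 * K / η ≤ Real.log Q := by
    rw [← Real.log_exp (2 * K / η)]
    exact Real.log_le_log (Real.exp_pos _) ((le_max_right _ _).trans hQ0)
  have hL' : K ≤ η / 2 * Real.log Q := by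
    rw [div_le_iff₀ hη] at hL
    linarith
  have hLpos : 0 < Real.log Q := Real.log_pos (by linarith)
  have hq2 : 2 ≤ q := by
    have h1 : (1 : ℝ) < (Q : ℝ) ^ (1 - c) := Real.one_lt_rpow (by linarith) (by linarith)
    have h2 : (1 : ℝ) < q := lt_of_lt_of_le h1 hq1
    exact_mod_cast h2
  have hqpos : (0 : ℝ) < q := by exact_mod_cast (by omega : 0 < q)
  have hlq1 : (1 - c) * Real.log Q ≤ Real.log q := by
    rw [← Real.log_rpow hQpos]
    exact Real.log_le_log (Real.rpow_pos_of_pos hQpos _) hq1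
  have hlq2 : Real.log q ≤ Real.log Q := Real.log_le_log hqpos (by exact_mod_cast hqQ)
  obtain ⟨κ, hκ0, hκ1, hLC⟩ := LC_eq hq2 χ
  refine ⟨HH q κ, fun s hs => ⟨(HH_deriv hq2 hκ0 hs).differentiableAt, HH_ne hq2 hκ0 hs, hLC s hs⟩, ?_⟩
  intro s hs1 hs2 him
  have hs : 0 < s.re := by linarith
  rw [ld_eq hq2 hκ0 hs]
  unfold ld
  set w : ℂ := (s + κ) / 2 with hw
  have hwre : w.re = (s.re + κ) / 2 := by
    rw [hw]; simp
  have hwim : w.im = s.im / 2 := by
    rw [hw]; simp
  have h1 := hψ w (by rw [hwre]; linarith) (by rw [hwre]; linarith)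
  have hQc : 1 ≤ (Q : ℝ) ^ c := Real.one_le_rpow (by linarith) hc0.le
  have h2 : Real.log (2 + |w.im|) ≤ Real.log 6 + c * Real.log Q := by
    rw [← Real.log_rpow hQpos, ← Real.log_mul (by norm_num) (by positivity)]
    apply Real.log_le_log (by positivity)
    rw [hwim, abs_div, abs_two]
    linarith
  have e : ((Real.log q / 2 : ℝ) : ℂ) + (-(Real.log Real.pi / 2 : ℝ) + logDeriv Complex.Gamma w / 2) -
      ((Real.log Q / 2 : ℝ) : ℂ) = (((Real.log q - Real.log Q) / 2 - Real.log Real.pi / 2 : ℝ) : ℂ) +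
      logDeriv Complex.Gamma w / 2 := by
    push_cast
    ring
  rw [e]
  have h3 := norm_add_le (((Real.log q - Real.log Q) / 2 - Real.log Real.pi / 2 : ℝ) : ℂ)
    (logDeriv Complex.Gamma w / 2)
  have h4 : ‖(((Real.log q - Real.log Q) / 2 - Real.log Real.pi / 2 : ℝ) : ℂ)‖ =
      (Real.log Q - Real.log q) / 2 + Real.log Real.pi / 2 := by
    rw [Complex.norm_real, Real.norm_eq_abs, abs_of_nonpos (by linarith)]
    ring
  have h5 : ‖logDeriv Complex.Gamma w / 2‖ = ‖logDeriv Complex.Gamma w‖ / 2 := by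
    rw [norm_div]; simp
  rw [h4, h5] at h3
  have h6 : c * Real.log Q ≤ η / 2 * Real.log Q := mul_le_mul_of_nonneg_right hc2 hLpos.le
  calc _ ≤ _ := h3
    _ ≤ K + c * Real.log Q := by
      rw [hK]
      linarith
    _ ≤ η * Real.log Q := by linarith

end Pool.Agent.W18.AF.HGw
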